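import Mathlib
import Pool.Agent.N604.MW.GFin

/-!
# Lattice points in thin shells around a generic centre: `2k + 1` variables

For `k ≥ 3`, `s ≥ 2k + 1`, every `a ∈ (0, ∞) ^ s` (for instance `a = (1, ..., 1)`) and almost every centre `γ ∈ ℝ ^ s`
the following holds for all `Δ > 0`: the number of `x ∈ ℤ ^ s` with
`y ≤ a_1 |x_1 - γ_1| ^ k + ... + a_s |x_s - γ_s| ^ k < y + Δ` is asymptotic to
`Δ (2 Γ(1 + 1/k)) ^ s / Γ(s/k) (a_1 ... a_s) ^ (-1/k) y ^ (s/k - 1)` as `y → ∞`.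
-/

namespace Pool.Agent.Results.MP_927be3_nt.GenericCentre

open MeasureTheory Filter

/-- The number of `x ∈ ℤ ^ s` with `y ≤ ∑ a_i |x_i - γ_i| ^ k < y + Δ`. -/
noncomputable def shell (s k : ℕ) (a γ : Fin s → ℝ) (y Δ : ℝ) : ℕ :=
  {x : Fin s → ℤ | y ≤ ∑ i, a i * |(x i : ℝ) - γ i| ^ k ∧ ∑ i, a i * |(x i : ℝ) - γ i| ^ k < y + Δ}.ncard

theorem result (k s : ℕ) (hk : 3 ≤ k) (hs : 2 * k + 1 ≤ s) (a : Fin s → ℝ) (ha : ∀ i, 0 < a i) :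
    ∀ᵐ γ : Fin s → ℝ, ∀ Δ : ℝ, 0 < Δ →
      Tendsto (fun y : ℝ => (shell s k a γ y Δ : ℝ) / y ^ ((s : ℝ) / k - 1)) atTop
        (nhds (Δ * ((2 * Real.Gamma (1 + 1 / (k : ℝ))) ^ s / Real.Gamma ((s : ℝ) / k) *
          ∏ i, a i ^ (-(1 / (k : ℝ)))))) :=
  Pool.Agent.N604.MW.gc_all s k hk hs a ha

end Pool.Agent.Results.MP_927be3_nt.GenericCentre
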