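import Mathlib
import Pool.Agent.N604.MW.AFin2

/-!
# Lattice points in thin shells for generic diagonal forms: `k + O(k / log k)` variables

(a) There are absolute constants `C` and `k_0` such that for all `k ≥ k_0`, all `s ≥ k + C k / log k` and almost
every `α ∈ (0, ∞) ^ s` the following holds for every `Δ > 0`: the number of `x ∈ ℤ ^ s` with
`y ≤ α_1 |x_1| ^ k + ... + α_s |x_s| ^ k < y + Δ` is asymptotic to
`Δ (2 Γ(1 + 1/k)) ^ s / Γ(s/k) (α_1 ... α_s) ^ (-1/k) y ^ (s/k - 1)` as `y → ∞`.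

(b) In dimension `s ≤ k` an asymptotic formula of this kind holds for no `α ∈ (0, ∞) ^ s`.

So the least dimension is `(1 + o(1)) k` for generic diagonal forms.
-/

namespace Pool.Agent.Results.MP_927be3_nt.GenericShells

open MeasureTheory Filter

/-- The number of `x ∈ ℤ ^ s` with `y ≤ ∑ α_i |x_i| ^ k < y + Δ`. -/
noncomputable def shell (s k : ℕ) (α : Fin s → ℝ) (y Δ : ℝ) : ℕ :=
  {x : Fin s → ℤ | y ≤ ∑ i, α i * |(x i : ℝ)| ^ k ∧ ∑ i, α i * |(x i : ℝ)| ^ k < y + Δ}.ncard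

theorem result :
    (∃ C : ℝ, 0 < C ∧ ∃ k₀ : ℕ, ∀ k s : ℕ, k₀ ≤ k → (k : ℝ) + C * k / Real.log k ≤ s →
      ∀ᵐ α : Fin s → ℝ, (∀ i, 0 < α i) → ∀ Δ : ℝ, 0 < Δ →
        Tendsto (fun y : ℝ => (shell s k α y Δ : ℝ) / y ^ ((s : ℝ) / k - 1)) atTop
          (nhds (Δ * ((2 * Real.Gamma (1 + 1 / (k : ℝ))) ^ s / Real.Gamma ((s : ℝ) / k) *
            ∏ i, α i ^ (-(1 / (k : ℝ))))))) ∧
    (∀ (s k : ℕ) (α : Fin s → ℝ) (c : ℝ), 1 ≤ s → s ≤ k → (∀ i, 0 < α i) → 0 < c →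
      ¬ ∀ Δ : ℝ, 0 < Δ →
        Tendsto (fun y : ℝ => (shell s k α y Δ : ℝ) / y ^ ((s : ℝ) / k - 1)) atTop (nhds (Δ * c))) :=
  ⟨Pool.Agent.N604.MW.ad_final, Pool.Agent.N42.AD.aconv⟩

end Pool.Agent.Results.MP_927be3_nt.GenericShells
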