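import Mathlib
import Pool.Agent.TH854.KS.K7

open Finset

namespace Pool.Agent.Results.MP_927be3_nt.LocalLowerBound

/-- The arithmetic `k`-sphere `S_{k,d}(r)` of radius `r` in dimension `d`. -/
def sphere (k d : ℕ) (r : ℝ) : Set (Fin d → ℤ) := {m | ∑ i, |(m i : ℝ)| ^ k = r ^ k}

/-- `N_{k,d}(r) ≍ r^{d-k}`: there are `0 < c ≤ C` and `r₀` with `c r^{d-k} ≤ N_{k,d}(r) ≤ C r^{d-k}`
for all radii `r ≥ r₀`, `r > 0`, with non-empty `S_{k,d}(r)`. -/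
def OrderHolds (k d : ℕ) : Prop :=
  ∃ c C r₀ : ℝ, 0 < c ∧ c ≤ C ∧ ∀ r : ℝ, 0 < r → r₀ ≤ r → (sphere k d r).Nonempty →
    c * r ^ ((d : ℝ) - k) ≤ ((sphere k d r).ncard : ℝ) ∧
      ((sphere k d r).ncard : ℝ) ≤ C * r ^ ((d : ℝ) - k)

/-- Local lower bounds for `d_0(k)`.  If `k ≥ 3` and `N_{k,d}(r) ≍ r^{d-k}` holds in dimension
`d ≥ 1`, then
* for every prime `p` and every `γ` the congruence `y_1^k + ... + y_d^k ≡ 0 (mod p^γ)` has a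
  solution with some `y_i` prime to `p`;
* `d ≥ 2^(τ+2)` for every `τ ≥ 1` with `2^τ ∣ k`  (so `d_0(2^τ) ≥ 4·2^τ`, `τ ≥ 2`);
* `d ≥ p^(τ+1)` for every prime `p` and every `τ` with `(p-1) p^τ ∣ k`. -/
theorem result (k : ℕ) (hk : 3 ≤ k) (d : ℕ) (hd : 1 ≤ d) (h : OrderHolds k d) :
    (∀ p : ℕ, p.Prime → ∀ γ : ℕ, ∃ y : Fin d → ℕ, p ^ γ ∣ ∑ i, y i ^ k ∧ ∃ i, ¬ p ∣ y i) ∧
    (∀ τ : ℕ, 1 ≤ τ → 2 ^ τ ∣ k → 2 ^ (τ + 2) ≤ d) ∧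
    (∀ p : ℕ, p.Prime → ∀ τ : ℕ, (p - 1) * p ^ τ ∣ k → p ^ (τ + 1) ≤ d) := by
  obtain ⟨c, C, r₀, hc, _, h⟩ := h
  have hH : Pool.Agent.TH854.KS.Holds k d := ⟨c, C, r₀, hc, h⟩
  have hd' : k + 1 ≤ d := by
    by_contra hcon
    exact Pool.Agent.TH854.KS.fails_low hk hd (by omega) hH
  exact ⟨fun p hp γ => Pool.Agent.TH854.KS.primitive_of_holds hk hd' hH hp γ,
    fun τ hτ hdvd => Pool.Agent.TH854.KS.bound_two hk hd' hH hτ hdvd,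
    fun p hp τ hdvd => Pool.Agent.TH854.KS.bound_odd hk hd' hH hp hdvd⟩

end Pool.Agent.Results.MP_927be3_nt.LocalLowerBound
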